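import Pool.Agent.N127.PB.Root

set_option autoImplicit false

/-! # The strong monodromy conjecture for `∑ y_j f_j(x₀, x₁, x₂)`

Here the `f_j` are forms of the same degree `d` in the three variables `x₀, x₁, x₂`, and the `y_j`
are further variables: `F = univ f = ∑ y_j f_j(x₀, x₁, x₂)`. The pole `s₀ = -3/d` comes from the
blow-up of `x₀ = x₁ = x₂ = 0`. If the Jacobian determinants of all triples of the `f_j` vanish then
the `f_j` are composed with a pencil of plane curves. This file proves that `-3/d` is a root of the
Bernstein-Sato polynomial of `F` for large classes of such `f_j`, see `RootCond`.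

`RootCond` (in `Pool.Agent.N127.PB.CondDefs`) contains the linear systems `L` which contain
`h G(P, Q)` and `h G'(P, Q)` for a pencil `P, Q` of curves of degree `e ≥ 3` with transversal base
points and an arbitrary form `h` (with a restriction for `e = 2`), the systems which contain `h P`
and `h Q`, where `P` and `Q` do not depend on `x₀` and the general line through `(1 : 0 : 0)` meets
`h = 0` in at least three other points (with a restriction in two other points), and the systems
which contain `h (P, Q) ^ k` under weak conditions.

The proof of `b(-3/d) = 0` (`root_of_EN`): let `α = -3/d` and suppose that `b(α) ≠ 0`. The functional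
equation gives polynomials `V_l` in `x` and `y` with
`b(α) F ^ α = ∑_l ∂_{x_l} (V_l F ^ (α - N))` for `F = ∑ y_j f_j` (`stmA`, `stmAI`). For two elements
`h P`, `h Q` of the linear system, a residue at the zero of `P + y Q` (as a polynomial in `y`) gives
a rational function `g` with `{g} + α g {h} / h = const ≠ 0`, where
`{a} = det (∇P, ∇Q, ∇a)` (`pair`). For pencils with transversal base points, the orders of the
numerator of `g` at the base points contradict its degree (`RPlus.no_sol_plus`); for pencils of
lines, `g` is a polynomial in `x₀` whose degree gives a contradiction (`stmLines`). -/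

namespace Pool.Agent.Results.MP_504089_ag.ConePencils

open MvPolynomial Pool.Agent.W574.CN Pool.Agent.W574.HS Pool.Agent.H628R4.TP Pool.Agent.N127.PB

/-- Let `f_j` be forms of the same degree `d > 0` in three variables, not all zero, let `b` be a
polynomial which satisfies a functional equation `b(s) F ^ s = P(s) F ^ (s + 1)` (in particular the
Bernstein-Sato polynomial of `F = ∑ y_j f_j`), and let `Z` be the topological zeta function of `F`.
Then every pole `s₀` of `Z` is a root of `b`, provided that `s₀ ≠ -3/d`, or that three of the `f_j`
have a nonzero Jacobian determinant (are algebraically independent), or that the linear system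
which is spanned by the `f_j` satisfies one of the conditions `RootCond`. -/
theorem result {ι : Type} [Fintype ι] (f : ι → MvPolynomial (Fin 3) ℂ) (d : ℕ) (hd : 0 < d)
    (hf : ∀ j, (f j).IsHomogeneous d) (hf0 : ∃ j, f j ≠ 0)
    (b : Polynomial ℂ) (hb : IsBFunction (univ f) b) (Z : RatFunc ℂ) (hZ : ConeFormZeta f d Z)
    (s₀ : ℂ) (hs₀ : Z.denom.eval s₀ = 0)
    (h : s₀ ≠ -3 / d ∨ (∃ e : Fin 3 → ι, (Matrix.of fun s t => pderiv s (f (e t))).det ≠ 0) ∨
      RootCond (Submodule.span ℂ (Set.range f)) d) :
    b.eval s₀ = 0 := by
  classical
  by_cases h3 : s₀ = -3 / d
  · rcases h with h | h | h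
    · exact absurd h3 h
    · exact cone_form_main f d hd hf hf0 b hb Z hZ s₀ hs₀ (Or.inr h)
    · rw [h3]
      exact root_form f d hd hf b hb h
  · exact cone_form_main f d hd hf hf0 b hb Z hZ s₀ hs₀ (Or.inl h3)

end Pool.Agent.Results.MP_504089_ag.ConePencils
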